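import Mathlib

/-!
# The excess of the accurate domination number of partition coronas is unbounded

`G` is the collinearity graph of the points of the incidence structure `y + b = a x` over `ZMod q`
(points `(x, y)`, lines `(a, b)`), and the neighbourhood of a point is divided according to the
lines through it.
-/

set_option autoImplicit false

namespace Pool.Agent.Results.MP_a24849_co.UnboundedExcess

open Finset

section defs

variable {V W : Type}

/-- `D` is dominating: every vertex outside `D` has a neighbour in `D`. -/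
def IsDominating (H : SimpleGraph W) (D : Finset W) : Prop :=
  ∀ v, v ∉ D → ∃ u ∈ D, H.Adj v u

/-- `D` is an accurate dominating set: it is dominating, and no dominating set with as many elements
as `D` is disjoint from `D`. -/
def IsAccurate (H : SimpleGraph W) (D : Finset W) : Prop :=
  IsDominating H D ∧
    ¬ ∃ D' : Finset W, (∀ v ∈ D', v ∉ D) ∧ D'.card = D.card ∧ IsDominating H D'

/-- the accurate domination number -/
noncomputable def accNumber (H : SimpleGraph W) : ℕ :=
  sInf {s | ∃ D : Finset W, IsAccurate H D ∧ D.card = s}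

/-- `P v` is a partition of the neighbourhood of `v` into nonempty blocks, for every vertex `v`. -/
structure IsPartitionFamily (G : SimpleGraph V) (P : V → Set (Set V)) : Prop where
  nonempty : ∀ v, ∀ A ∈ P v, A.Nonempty
  cover : ∀ v u, G.Adj v u ↔ ∃ A ∈ P v, u ∈ A
  disjoint : ∀ v, ∀ A ∈ P v, ∀ B ∈ P v, ∀ u, u ∈ A → u ∈ B → A = B

/-- The `P`-corona of `G`: its vertices are the vertices `v` of `G` and the pairs `(v, A)` with
`A ∈ P v`; `v` is adjacent to `(v, A)`, and `(v, A)` is adjacent to `(u, B)` whenever `u v` is an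
edge of `G`, `u ∈ A` and `v ∈ B`. -/
def corona (G : SimpleGraph V) (P : V → Set (Set V)) :
    SimpleGraph (V ⊕ {x : V × Set V // x.2 ∈ P x.1}) where
  Adj a b := match a, b with
    | Sum.inl _, Sum.inl _ => False
    | Sum.inl v, Sum.inr x => x.1.1 = v
    | Sum.inr x, Sum.inl v => x.1.1 = v
    | Sum.inr x, Sum.inr y => G.Adj x.1.1 y.1.1 ∧ y.1.1 ∈ x.1.2 ∧ x.1.1 ∈ y.1.2
  symm := ⟨by
    rintro (a | a) (b | b) h
    · exact h
    · exact h
    · exact h
    · exact ⟨h.1.symm, h.2.2, h.2.1⟩⟩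
  loopless := ⟨by
    rintro (a | a) h
    · exact h
    · exact h.1.ne rfl⟩

end defs

section plane

variable (q : ℕ)

/-- points (and lines) -/
abbrev Pt := ZMod q × ZMod q

variable {q}

/-- incidence of the point `p` and the line `l` -/
def inc (p l : Pt q) : Prop := p.2 + l.2 = l.1 * p.1

theorem inc_comm (p l : Pt q) : inc p l ↔ inc l p := by
  unfold inc; rw [add_comm, mul_comm]

variable [Fact q.Prime]

theorem line_unique {u v l m : Pt q} (huv : u ≠ v) (h1 : inc u l) (h2 : inc v l) (h3 : inc u m)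
    (h4 : inc v m) : l = m := by
  unfold inc at *
  have hx : u.1 ≠ v.1 := by
    intro hx
    apply huv
    have : u.2 = v.2 := by
      have : u.2 + l.2 = v.2 + l.2 := by rw [h1, h2, hx]
      exact add_right_cancel this
    exact Prod.ext hx this
  have h5 : (l.1 - m.1) * (u.1 - v.1) = 0 := by linear_combination h2 - h1 + h3 - h4
  have h6 : l.1 = m.1 := by
    rcases mul_eq_zero.mp h5 with h | h
    · exact sub_eq_zero.mp h
    · exact absurd (sub_eq_zero.mp h) hx
  have h7 : l.2 = m.2 := by linear_combination h1 - h3 + u.1 * h6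
  exact Prod.ext h6 h7

open Classical in
theorem lines_card (u : Pt q) : ((univ : Finset (Pt q)).filter (fun l => inc u l)).card = q := by
  have h0 : (univ : Finset (Pt q)).filter (fun l => inc u l) =
      (univ : Finset (ZMod q)).image (fun a => (a, a * u.1 - u.2)) := by
    ext l
    rw [Finset.mem_filter, Finset.mem_image]
    constructor
    · rintro ⟨-, h⟩
      unfold inc at h
      refine ⟨l.1, mem_univ _, Prod.ext rfl ?_⟩
      show l.1 * u.1 - u.2 = l.2
      linear_combination -h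
    · rintro ⟨a, -, rfl⟩
      refine ⟨mem_univ _, ?_⟩
      unfold inc
      show u.2 + (a * u.1 - u.2) = a * u.1
      ring
  rw [h0, card_image_of_injective, card_univ, ZMod.card]
  intro a b h
  exact (Prod.ext_iff.mp h).1

open Classical in
theorem common_card (u v : Pt q) :
    (((univ : Finset (Pt q)).filter (fun l => inc u l ∧ inc v l)).card : ℤ) ≤
      (if u = v then (q : ℤ) else 0) + (if u.1 = v.1 then 0 else 1) := by
  by_cases huv : u = v
  · subst huv
    rw [if_pos rfl, if_pos rfl, add_zero]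
    simp only [and_self]
    rw [lines_card]
  · rw [if_neg huv, zero_add]
    by_cases hx : u.1 = v.1
    · rw [if_pos hx]
      have : (univ : Finset (Pt q)).filter (fun l => inc u l ∧ inc v l) = ∅ := by
        rw [Finset.filter_eq_empty_iff]
        rintro l - ⟨h1, h2⟩
        apply huv
        unfold inc at h1 h2
        have : u.2 = v.2 := by
          have : u.2 + l.2 = v.2 + l.2 := by rw [h1, h2, hx]
          exact add_right_cancel this
        exact Prod.ext hx this
      rw [this]; simp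
    · rw [if_neg hx]
      have : ((univ : Finset (Pt q)).filter (fun l => inc u l ∧ inc v l)).card ≤ 1 := by
        rw [Finset.card_le_one]
        intro a ha b hb
        rw [mem_filter] at ha hb
        exact line_unique huv ha.2.1 ha.2.2 hb.2.1 hb.2.2
      exact_mod_cast this

open Classical in
/-- the number of points of `S` on the line `l` -/
noncomputable def deg (S : Finset (Pt q)) (l : Pt q) : ℕ := (S.filter (fun u => inc u l)).card

open Classical in
theorem variance (S : Finset (Pt q)) :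
    ∑ l : Pt q, ((q : ℤ) * deg S l - S.card) ^ 2 ≤ q * S.card * ((q : ℤ) ^ 2 - S.card) := by
  obtain ⟨x, hx⟩ : ∃ x : ℤ, x = (S.card : ℤ) := ⟨_, rfl⟩
  rw [← hx]
  have hd : ∀ l, (deg S l : ℤ) = ∑ u ∈ S, if inc u l then (1 : ℤ) else 0 := by
    intro l
    unfold deg
    rw [Finset.card_filter]; push_cast; rfl
  have h1 : ∑ l : Pt q, (deg S l : ℤ) = q * x := by
    simp_rw [hd]
    rw [Finset.sum_comm]
    have : ∀ u ∈ S, ∑ l : Pt q, (if inc u l then (1 : ℤ) else 0) = q := by
      intro u _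
      have h := lines_card u
      rw [Finset.card_filter] at h
      exact_mod_cast h
    rw [Finset.sum_congr rfl this, Finset.sum_const, nsmul_eq_mul, hx]
    ring
  have h2 : ∑ l : Pt q, (deg S l : ℤ) ^ 2 ≤
      ∑ u ∈ S, ∑ v ∈ S, ((if u = v then (q : ℤ) else 0) + (if u.1 = v.1 then 0 else 1)) := by
    have h3 : ∀ l, (deg S l : ℤ) ^ 2 = ∑ u ∈ S, ∑ v ∈ S, if inc u l ∧ inc v l then (1 : ℤ) else 0 := by
      intro l
      rw [hd, sq, Finset.sum_mul_sum]
      refine Finset.sum_congr rfl fun u _ => Finset.sum_congr rfl fun v _ => ?_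
      by_cases hu : inc u l <;> by_cases hv : inc v l <;> simp [hu, hv]
    simp_rw [h3]
    rw [Finset.sum_comm]
    refine Finset.sum_le_sum fun u _ => ?_
    rw [Finset.sum_comm]
    refine Finset.sum_le_sum fun v _ => ?_
    refine le_trans (le_of_eq ?_) (common_card u v)
    rw [Finset.card_filter]; push_cast; rfl
  -- the columns
  set c : ZMod q → ℤ := fun a => ((S.filter (fun u => u.1 = a)).card : ℤ) with hc
  have h4 : ∑ u ∈ S, ∑ v ∈ S, ((if u = v then (q : ℤ) else 0) + (if u.1 = v.1 then 0 else 1)) =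
      q * x + x ^ 2 - ∑ a, c a ^ 2 := by
    have h5 : ∑ u ∈ S, ∑ v ∈ S, (if u = v then (q : ℤ) else 0) = q * x := by
      have : ∀ u ∈ S, ∑ v ∈ S, (if u = v then (q : ℤ) else 0) = q := by
        intro u hu
        rw [Finset.sum_ite_eq, if_pos hu]
      rw [Finset.sum_congr rfl this, Finset.sum_const, nsmul_eq_mul, hx]
      ring
    have h6 : ∑ u ∈ S, ∑ v ∈ S, (if u.1 = v.1 then (0 : ℤ) else 1) =
        x ^ 2 - ∑ u ∈ S, ∑ v ∈ S, (if u.1 = v.1 then (1 : ℤ) else 0) := by
      rw [eq_sub_iff_add_eq, ← Finset.sum_add_distrib]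
      have : ∀ u ∈ S, (∑ v ∈ S, (if u.1 = v.1 then (0 : ℤ) else 1)) +
          ∑ v ∈ S, (if u.1 = v.1 then (1 : ℤ) else 0) = x := by
        intro u _
        rw [← Finset.sum_add_distrib]
        have : ∀ v ∈ S, ((if u.1 = v.1 then (0 : ℤ) else 1) + (if u.1 = v.1 then (1 : ℤ) else 0)) = 1 := by
          intro v _
          split_ifs <;> norm_num
        rw [Finset.sum_congr rfl this]
        simp [hx]
      rw [Finset.sum_congr rfl this, Finset.sum_const, nsmul_eq_mul, hx]
      ring
    have h7 : ∑ u ∈ S, ∑ v ∈ S, (if u.1 = v.1 then (1 : ℤ) else 0) = ∑ a, c a ^ 2 := by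
      have h8 : ∀ a, c a ^ 2 = ∑ u ∈ S, ∑ v ∈ S, if (u.1 = a ∧ v.1 = a) then (1 : ℤ) else 0 := by
        intro a
        have : c a = ∑ u ∈ S, if u.1 = a then (1 : ℤ) else 0 := by
          rw [hc]; simp only; rw [Finset.card_filter]; push_cast; rfl
        rw [this, sq, Finset.sum_mul_sum]
        refine Finset.sum_congr rfl fun u _ => Finset.sum_congr rfl fun v _ => ?_
        by_cases hu : u.1 = a <;> by_cases hv : v.1 = a <;> simp [hu, hv]
      simp_rw [h8]
      symm
      rw [Finset.sum_comm]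
      refine Finset.sum_congr rfl fun u _ => ?_
      rw [Finset.sum_comm]
      refine Finset.sum_congr rfl fun v _ => ?_
      by_cases h : u.1 = v.1
      · rw [if_pos h]
        rw [Finset.sum_eq_single u.1]
        · rw [if_pos ⟨rfl, h.symm⟩]
        · intro b _ hb
          rw [if_neg]; rintro ⟨h1, -⟩; exact hb h1.symm
        · intro h; exact absurd (mem_univ _) h
      · rw [if_neg h]
        apply Finset.sum_eq_zero
        intro a _
        rw [if_neg]; rintro ⟨h1, h2⟩; exact h (h1.trans h2.symm)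
    simp_rw [Finset.sum_add_distrib]
    rw [h5, h6, h7]; ring
  have h9 : x ^ 2 ≤ q * ∑ a, c a ^ 2 := by
    have h10 : ∑ a, c a = x := by
      rw [hc, hx]
      have := Finset.card_eq_sum_card_fiberwise (s := S) (t := (univ : Finset (ZMod q)))
        (f := fun u => u.1) (fun _ _ => Finset.mem_coe.mpr (mem_univ _))
      rw [this]; push_cast; rfl
    have h11 := sq_sum_le_card_mul_sum_sq (s := (univ : Finset (ZMod q))) (f := c)
    rw [h10, card_univ, ZMod.card] at h11
    exact h11
  have h12 : ∑ l : Pt q, ((q : ℤ) * deg S l - x) ^ 2 =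
      q ^ 2 * ∑ l : Pt q, (deg S l : ℤ) ^ 2 - 2 * q * x * ∑ l : Pt q, (deg S l : ℤ) + q ^ 2 * x ^ 2 := by
    have : ∀ l : Pt q, ((q : ℤ) * deg S l - x) ^ 2 =
        q ^ 2 * (deg S l : ℤ) ^ 2 - 2 * q * x * (deg S l : ℤ) + x ^ 2 := fun l => by ring
    rw [Finset.sum_congr rfl (fun l _ => this l), Finset.sum_add_distrib, Finset.sum_sub_distrib,
      ← Finset.mul_sum, ← Finset.mul_sum, Finset.sum_const, card_univ, Fintype.card_prod, ZMod.card,
      nsmul_eq_mul]
    push_cast; ring
  rw [h12, h1]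
  rw [h4] at h2
  have hq : (0 : ℤ) ≤ (q : ℤ) := by positivity
  have h13 : (q : ℤ) ^ 2 * ∑ l : Pt q, (deg S l : ℤ) ^ 2 ≤
      q ^ 2 * (q * x + x ^ 2 - ∑ a, c a ^ 2) := mul_le_mul_of_nonneg_left h2 (by positivity)
  have h14 : (q : ℤ) * x ^ 2 ≤ q * (q * ∑ a, c a ^ 2) := mul_le_mul_of_nonneg_left h9 hq
  nlinarith

/-- If few lines ... : for a set `S` of points and a set `T` of lines such that every line of `T`
contains at most `m` points of `S`. -/
theorem sparse {S T : Finset (Pt q)} {m : ℕ} (hm : q * m ≤ S.card)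
    (h : ∀ l ∈ T, deg S l ≤ m) :
    T.card * (S.card - q * m) ^ 2 ≤ q * S.card * (q ^ 2 - S.card) := by
  have hS : S.card ≤ q ^ 2 := by
    have := Finset.card_le_univ S
    rwa [Fintype.card_prod, ZMod.card, ← sq] at this
  have h1 := variance S
  have h2 : ∑ l ∈ T, ((S.card : ℤ) - q * m) ^ 2 ≤ ∑ l : Pt q, ((q : ℤ) * deg S l - S.card) ^ 2 := by
    refine le_trans (Finset.sum_le_sum (g := fun l => ((q : ℤ) * deg S l - S.card) ^ 2) ?_)
      (Finset.sum_le_sum_of_subset_of_nonneg (subset_univ T) fun _ _ _ => sq_nonneg _)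
    intro l hl
    have h3 : (q : ℤ) * deg S l ≤ q * m := by exact_mod_cast Nat.mul_le_mul_left q (h l hl)
    have h4 : (q : ℤ) * m ≤ S.card := by exact_mod_cast hm
    nlinarith
  rw [Finset.sum_const, nsmul_eq_mul] at h2
  zify [hm, hS]
  exact h2.trans h1


/-- A large set of points and a large set of lines have a line with many points. -/
theorem core {k : ℕ} (hk : 8 * (k + 1) ≤ q) {S T : Finset (Pt q)} (h1 : q ^ 2 ≤ 2 * S.card)
    (h2 : q ^ 2 < S.card + T.card) (h : ∀ l ∈ T, deg S l ≤ k + 1) : False := by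
  have hS : S.card ≤ q ^ 2 := by
    have := Finset.card_le_univ S
    rwa [Fintype.card_prod, ZMod.card, ← sq] at this
  have hm : q * (k + 1) ≤ S.card := by nlinarith
  have h3 := sparse hm h
  obtain ⟨x, hx⟩ : ∃ x, x = S.card := ⟨_, rfl⟩
  obtain ⟨t, ht⟩ : ∃ t, t = T.card := ⟨_, rfl⟩
  rw [← hx] at h1 h2 hS hm h3
  rw [← ht] at h2 h3
  have hm' : ((q * (k + 1) : ℕ) : ℤ) ≤ x := by exact_mod_cast hm
  have h4 : (t : ℤ) * ((x : ℤ) - q * (k + 1)) ^ 2 ≤ q * x * ((q : ℤ) ^ 2 - x) := by
    zify [hm, hS] at h3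
    exact h3
  have h5 : (q : ℤ) * (k + 1) * 4 ≤ x := by
    have : (q : ℤ) ^ 2 ≤ 2 * x := by exact_mod_cast h1
    have h6 : (8 : ℤ) * (k + 1) ≤ q := by exact_mod_cast hk
    nlinarith
  have h6 : (x : ℤ) * 3 ≤ 4 * ((x : ℤ) - q * (k + 1)) := by linarith
  have hq8 : (8 : ℤ) ≤ q := by
    have : (8 : ℤ) * (k + 1) ≤ q := by exact_mod_cast hk
    nlinarith [(Nat.cast_nonneg k : (0:ℤ) ≤ k)]
  have hx1 : (q : ℤ) ^ 2 ≤ 2 * x := by exact_mod_cast h1
  have hx0 : (0 : ℤ) < x := by nlinarith
  have ht0 : (q : ℤ) ^ 2 - x < t := by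
    have : (q : ℤ) ^ 2 < x + t := by exact_mod_cast h2
    linarith
  have hS' : (x : ℤ) ≤ (q : ℤ) ^ 2 := by exact_mod_cast hS
  have ht1 : (0 : ℤ) < t := by linarith
  have h7 : (9 : ℤ) * x ^ 2 ≤ 16 * ((x : ℤ) - q * (k + 1)) ^ 2 := by
    nlinarith
  have h8 : (9 : ℤ) * x ^ 2 * t ≤ 16 * (q * x * ((q : ℤ) ^ 2 - x)) := by nlinarith
  have h9 : 16 * (q * x * ((q : ℤ) ^ 2 - x)) < 16 * (q * x * t) := by
    have : (0 : ℤ) < q * x := by positivity
    nlinarith
  have h10 : (9 : ℤ) * x * (x * t) < 16 * q * (x * t) := by nlinarith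
  have h11 : (9 : ℤ) * x < 16 * q := lt_of_mul_lt_mul_right h10 (by positivity)
  nlinarith

theorem core0 {k : ℕ} (hk : 8 * (k + 1) ≤ q) {S T : Finset (Pt q)} (h1 : q ^ 2 ≤ 2 * S.card + k)
    (h2 : q ^ 2 ≤ S.card + T.card + k) (hT : 0 < T.card) (h : ∀ l ∈ T, deg S l ≤ 0) : False := by
  have hS : S.card ≤ q ^ 2 := by
    have := Finset.card_le_univ S
    rwa [Fintype.card_prod, ZMod.card, ← sq] at this
  have h3 := sparse (m := 0) (by simp) h
  obtain ⟨x, hx⟩ : ∃ x, x = S.card := ⟨_, rfl⟩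
  obtain ⟨t, ht⟩ : ∃ t, t = T.card := ⟨_, rfl⟩
  rw [← hx] at h1 h2 hS h3
  rw [← ht] at h2 h3 hT
  have h4 : (t : ℤ) * (x : ℤ) ^ 2 ≤ q * x * ((q : ℤ) ^ 2 - x) := by
    have : q * 0 ≤ x := by simp
    zify [this, hS] at h3
    simpa using h3
  have hk' : (8 : ℤ) * (k + 1) ≤ q := by exact_mod_cast hk
  have hk0 : (0 : ℤ) ≤ k := by positivity
  have hx1 : (q : ℤ) ^ 2 ≤ 2 * x + k := by exact_mod_cast h1
  have hx2 : (q : ℤ) ^ 2 - x ≤ t + k := by
    have : (q : ℤ) ^ 2 ≤ x + t + k := by exact_mod_cast h2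
    linarith
  have ht1 : (1 : ℤ) ≤ t := by exact_mod_cast hT
  have hx3 : (q : ℤ) * (k + 1) < x := by nlinarith
  have hx0 : (0 : ℤ) < x := by nlinarith
  have h5 : (q : ℤ) * x * ((q : ℤ) ^ 2 - x) ≤ q * x * (t + k) :=
    mul_le_mul_of_nonneg_left hx2 (by positivity)
  have h6 : (x : ℤ) * (t * x) ≤ x * (q * (t + k)) := by nlinarith
  have h7 : (t : ℤ) * x ≤ q * (t + k) := le_of_mul_le_mul_left h6 hx0
  have h8 : (t : ℤ) * (x - q) ≤ q * k := by nlinarith
  have hxq : (0 : ℤ) ≤ (x : ℤ) - q := by nlinarith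
  have h9 : (x : ℤ) - q ≤ t * (x - q) := by nlinarith
  nlinarith

/-- the block of the neighbourhood of `v` given by the line `l` -/
def blk (v l : Pt q) : Set (Pt q) := {u | u ≠ v ∧ inc u l}

theorem blk_nonempty (v l : Pt q) : (blk v l).Nonempty := by
  refine ⟨(v.1 + 1, l.1 * (v.1 + 1) - l.2), ?_, ?_⟩
  · intro h
    have h1 := (Prod.ext_iff.mp h).1
    simp at h1
  · unfold inc
    show l.1 * (v.1 + 1) - l.2 + l.2 = l.1 * (v.1 + 1)
    ring

theorem blk_inj {v l m : Pt q} (hl : inc v l) (hm : inc v m) (h : blk v l = blk v m) : l = m := by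
  obtain ⟨u, hu⟩ := blk_nonempty v l
  have hu' : u ∈ blk v m := h ▸ hu
  exact line_unique hu.1 hu.2 hl hu'.2 hm

variable (q) in
/-- two points are adjacent if they are different and lie on a common line -/
def G : SimpleGraph (Pt q) where
  Adj u v := u ≠ v ∧ ∃ l, inc u l ∧ inc v l
  symm := ⟨fun _ _ h => ⟨h.1.symm, h.2.elim fun l hl => ⟨l, hl.2, hl.1⟩⟩⟩
  loopless := ⟨fun _ h => h.1 rfl⟩

variable (q) in
/-- the neighbourhood of `v` is partitioned by the lines through `v` -/
def P (v : Pt q) : Set (Set (Pt q)) := {A | ∃ l, inc v l ∧ A = blk v l}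

theorem isPartitionFamily : IsPartitionFamily (G q) (P q) where
  nonempty := by
    rintro v A ⟨l, -, rfl⟩
    exact blk_nonempty v l
  cover := by
    intro v u
    constructor
    · rintro ⟨h, l, h1, h2⟩
      exact ⟨blk v l, ⟨l, h1, rfl⟩, h.symm, h2⟩
    · rintro ⟨A, ⟨l, hl, rfl⟩, hu⟩
      exact ⟨hu.1.symm, l, hl, hu.2⟩
  disjoint := by
    rintro v A ⟨l, hl, rfl⟩ B ⟨m, hm, rfl⟩ u hu hu'
    rw [line_unique hu.1 hu.2 hl hu'.2 hm]

variable (q) in
/-- vertices of the corona -/
abbrev VV := Pt q ⊕ {x : Pt q × Set (Pt q) // x.2 ∈ P q x.1}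

/-- the vertex of the corona given by a flag -/
def fl (v l : Pt q) (h : inc v l) : VV q := Sum.inr ⟨(v, blk v l), ⟨l, h, rfl⟩⟩

theorem fl_inj {v l v' l' : Pt q} {h : inc v l} {h' : inc v' l'} (e : fl v l h = fl v' l' h') :
    v = v' ∧ l = l' := by
  unfold fl at e
  have e1 := Sum.inr_injective e
  have e2 := Subtype.ext_iff.mp e1
  have e3 := Prod.ext_iff.mp e2
  have e4 : v = v' := e3.1
  subst e4
  exact ⟨rfl, blk_inj h h' e3.2⟩

omit [Fact q.Prime] in
theorem inr_eq (x : {x : Pt q × Set (Pt q) // x.2 ∈ P q x.1}) :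
    ∃ (v l : Pt q) (h : inc v l), (Sum.inr x : VV q) = fl v l h := by
  obtain ⟨⟨v, A⟩, l, h, hA⟩ := x
  have hA' : A = blk v l := hA
  subst hA'
  exact ⟨v, l, h, rfl⟩

theorem adj_fl {v l u m : Pt q} {h : inc v l} {h' : inc u m} :
    (corona (G q) (P q)).Adj (fl v l h) (fl u m h') ↔ u ≠ v ∧ l = m := by
  constructor
  · rintro ⟨h1, h2, h3⟩
    have h2' : u ∈ blk v l := h2
    have h3' : v ∈ blk u m := h3
    exact ⟨h2'.1, line_unique h2'.1 h2'.2 h h' h3'.2⟩
  · rintro ⟨h1, rfl⟩
    exact ⟨⟨h1.symm, l, h, h'⟩, ⟨h1, h'⟩, ⟨h1.symm, h⟩⟩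

omit [Fact q.Prime] in
theorem adj_inl_fl {v u m : Pt q} {h' : inc u m} :
    (corona (G q) (P q)).Adj (Sum.inl v) (fl u m h') ↔ u = v := Iff.rfl

omit [Fact q.Prime] in
theorem adj_fl_inl {v u m : Pt q} {h' : inc u m} :
    (corona (G q) (P q)).Adj (fl u m h') (Sum.inl v) ↔ u = v := Iff.rfl

omit [Fact q.Prime] in
theorem not_adj_inl {v u : Pt q} :
    ¬ (corona (G q) (P q)).Adj (Sum.inl v) (Sum.inl u) := fun h => h

open Classical in
/-- the centres in `D` -/
noncomputable def Z (D : Finset (VV q)) : Finset (Pt q) := univ.filter (fun v => Sum.inl v ∈ D)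

open Classical in
/-- the flags in `D` -/
noncomputable def F (D : Finset (VV q)) : Finset (Pt q × Pt q) :=
  univ.filter (fun p => ∃ h : inc p.1 p.2, fl p.1 p.2 h ∈ D)

theorem mem_Z {D : Finset (VV q)} {v : Pt q} : v ∈ Z D ↔ Sum.inl v ∈ D := by
  unfold Z; rw [Finset.mem_filter]; simp

theorem mem_F {D : Finset (VV q)} {v l : Pt q} :
    (v, l) ∈ F D ↔ ∃ h : inc v l, fl v l h ∈ D := by
  classical
  unfold F
  exact ⟨fun h => (Finset.mem_filter.mp h).2, fun h => Finset.mem_filter.mpr ⟨mem_univ _, h⟩⟩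

open Classical in
theorem card_Z_add_card_F (D : Finset (VV q)) : (Z D).card + (F D).card ≤ D.card := by
  rw [← Finset.card_disjSum]
  let g : Pt q ⊕ (Pt q × Pt q) → VV q := fun a =>
    match a with
    | Sum.inl v => Sum.inl v
    | Sum.inr p => if h : inc p.1 p.2 then fl p.1 p.2 h else Sum.inl p.1
  have hg1 : ∀ v, g (Sum.inl v) = Sum.inl v := fun _ => rfl
  have hg2 : ∀ v l (h : inc v l), g (Sum.inr (v, l)) = fl v l h := by
    intro v l h
    show (if h : inc v l then fl v l h else Sum.inl v) = _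
    rw [dif_pos h]
  apply Finset.card_le_card_of_injOn g
  · intro a ha
    rw [Finset.mem_coe] at ha
    rw [Finset.mem_coe]
    rcases a with v | ⟨v, l⟩
    · rw [Finset.inl_mem_disjSum, mem_Z] at ha
      exact ha
    · rw [Finset.inr_mem_disjSum, mem_F] at ha
      obtain ⟨h, h'⟩ := ha
      rw [hg2 v l h]; exact h'
  · intro a ha b hb hab
    rw [Finset.mem_coe] at ha hb
    rcases a with v | ⟨v, l⟩ <;> rcases b with u | ⟨u, m⟩
    · rw [hg1, hg1] at hab
      rw [Sum.inl_injective hab]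
    · rw [Finset.inr_mem_disjSum, mem_F] at hb
      obtain ⟨h, -⟩ := hb
      rw [hg1, hg2 u m h] at hab
      exact absurd hab (by unfold fl; exact Sum.inl_ne_inr)
    · rw [Finset.inr_mem_disjSum, mem_F] at ha
      obtain ⟨h, -⟩ := ha
      rw [hg1, hg2 v l h] at hab
      exact absurd hab (by unfold fl; exact Sum.inr_ne_inl)
    · rw [Finset.inr_mem_disjSum, mem_F] at ha hb
      obtain ⟨h, -⟩ := ha
      obtain ⟨h', -⟩ := hb
      rw [hg2 v l h, hg2 u m h'] at hab
      obtain ⟨rfl, rfl⟩ := fl_inj hab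
      rfl

section dom

variable {D : Finset (VV q)} (hD : IsDominating (corona (G q) (P q)) D)
include hD

theorem centre_dom {v : Pt q} (hv : v ∉ Z D) : ∃ l, (v, l) ∈ F D := by
  rw [mem_Z] at hv
  obtain ⟨u, hu, ha⟩ := hD _ hv
  rcases u with u | x
  · exact absurd ha not_adj_inl
  · obtain ⟨u, m, h, he⟩ := inr_eq x
    rw [he] at hu ha
    have := adj_inl_fl.mp ha
    subst this
    exact ⟨m, mem_F.mpr ⟨h, hu⟩⟩

theorem line_dom {l : Pt q} (hl : ∀ v, (v, l) ∉ F D) {v : Pt q} (hv : inc v l) : v ∈ Z D := by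
  have h1 : fl v l hv ∉ D := fun h => hl v (mem_F.mpr ⟨hv, h⟩)
  obtain ⟨u, hu, ha⟩ := hD _ h1
  rcases u with u | x
  · have := adj_fl_inl.mp ha
    subst this
    exact mem_Z.mpr hu
  · obtain ⟨u, m, h, he⟩ := inr_eq x
    rw [he] at hu ha
    obtain ⟨h2, rfl⟩ := adj_fl.mp ha
    exact absurd (mem_F.mpr ⟨h, hu⟩) (hl u)

theorem card_ge : q ^ 2 ≤ (Z D).card + (F D).card := by
  classical
  have h1 : (univ : Finset (Pt q)) ⊆ Z D ∪ (F D).image Prod.fst := by
    intro v _
    by_cases hv : v ∈ Z D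
    · exact mem_union_left _ hv
    · obtain ⟨l, hl⟩ := centre_dom hD hv
      exact mem_union_right _ (mem_image.mpr ⟨(v, l), hl, rfl⟩)
  have h2 := Finset.card_le_card h1
  rw [card_univ, Fintype.card_prod, ZMod.card, ← sq] at h2
  calc q ^ 2 ≤ _ := h2
    _ ≤ _ := Finset.card_union_le _ _
    _ ≤ _ := Nat.add_le_add_left Finset.card_image_le _

/-- the dichotomy: all centres are in `D`, or all lines are touched -/
theorem dichotomy {k : ℕ} (hk : 8 * (k + 1) ≤ q) (hc : (Z D).card + (F D).card ≤ q ^ 2 + k) :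
    (∀ v, v ∈ Z D) ∨ ∀ l, ∃ v, (v, l) ∈ F D := by
  classical
  by_contra hcon
  push Not at hcon
  obtain ⟨⟨v0, hv0⟩, ⟨l0, hl0⟩⟩ := hcon
  obtain ⟨W, hW⟩ : ∃ W, W = univ \ Z D := ⟨_, rfl⟩
  obtain ⟨L, hL⟩ : ∃ L, L = univ \ (F D).image Prod.snd := ⟨_, rfl⟩
  have hWc : W.card + (Z D).card = q ^ 2 := by
    rw [hW, Finset.card_sdiff_add_card_eq_card (subset_univ _), card_univ, Fintype.card_prod,
      ZMod.card, ← sq]
  have hLc : L.card + ((F D).image Prod.snd).card = q ^ 2 := by
    rw [hL, Finset.card_sdiff_add_card_eq_card (subset_univ _), card_univ, Fintype.card_prod,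
      ZMod.card, ← sq]
  have hLc' : ((F D).image Prod.snd).card ≤ (F D).card := Finset.card_image_le
  have hmemL : ∀ l, l ∈ L ↔ ∀ v, (v, l) ∉ F D := by
    intro l
    rw [hL, mem_sdiff, mem_image]
    constructor
    · rintro ⟨-, h⟩ v hv
      exact h ⟨(v, l), hv, rfl⟩
    · intro h
      refine ⟨mem_univ _, ?_⟩
      rintro ⟨⟨v, l'⟩, h1, h2⟩
      have h3 : l' = l := h2
      subst h3
      exact h v h1
  have hmemW : ∀ v, v ∈ W ↔ v ∉ Z D := by
    intro v; rw [hW, mem_sdiff]; simp
  have hno : ∀ v ∈ W, ∀ l ∈ L, ¬ inc v l := by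
    intro v hv l hl h
    exact (hmemW v).mp hv (line_dom hD ((hmemL l).mp hl) h)
  have hsum : q ^ 2 ≤ W.card + L.card + k := by omega
  have hW0 : 0 < W.card := Finset.card_pos.mpr ⟨v0, (hmemW v0).mpr hv0⟩
  have hL0 : 0 < L.card := Finset.card_pos.mpr ⟨l0, (hmemL l0).mpr hl0⟩
  have hdW : ∀ l ∈ L, deg W l ≤ 0 := by
    intro l hl
    unfold deg
    rw [Nat.le_zero, Finset.card_eq_zero, Finset.filter_eq_empty_iff]
    intro v hv h
    exact hno v hv l hl h
  have hdL : ∀ v ∈ W, deg L v ≤ 0 := by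
    intro v hv
    unfold deg
    rw [Nat.le_zero, Finset.card_eq_zero, Finset.filter_eq_empty_iff]
    intro l hl h
    exact hno v hv l hl ((inc_comm _ _).mp h)
  rcases le_total L.card W.card with h | h
  · exact core0 hk (by omega) hsum hL0 hdW
  · exact core0 hk (by omega) (by omega) hW0 hdL

theorem deg_le {k : ℕ} (hk : 8 * (k + 1) ≤ q) (hc : (Z D).card + (F D).card ≤ q ^ 2 + k) :
    (∀ v : Pt q, ∀ T : Finset (Pt q), (∀ l ∈ T, (v, l) ∈ F D) → T.card ≤ k + 1) ∧
    (∀ l : Pt q, ∀ S : Finset (Pt q), (∀ v ∈ S, (v, l) ∈ F D) → S.card ≤ k + 1) := by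
  classical
  constructor
  · intro v T hT
    -- the flags at `v` and a flag for every other point outside `Z`
    have h1 : (univ \ Z D).erase v ⊆ ((F D).filter (fun p => p.1 ≠ v)).image Prod.fst := by
      intro u hu
      rw [mem_erase, mem_sdiff] at hu
      obtain ⟨l, hl⟩ := centre_dom hD hu.2.2
      exact mem_image.mpr ⟨(u, l), mem_filter.mpr ⟨hl, hu.1⟩, rfl⟩
    have h2 := (Finset.card_le_card h1).trans Finset.card_image_le
    have h3 := Finset.pred_card_le_card_erase (s := univ \ Z D) (a := v)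
    have h4 : (univ \ Z D).card + (Z D).card = q ^ 2 := by
      rw [Finset.card_sdiff_add_card_eq_card (subset_univ _), card_univ, Fintype.card_prod,
        ZMod.card, ← sq]
    have h5 := Finset.card_filter_add_card_filter_not (s := F D) (fun p => p.1 = v)
    have h6 : T.card ≤ ((F D).filter (fun p => p.1 = v)).card := by
      apply Finset.card_le_card_of_injOn (fun l => (v, l))
      · intro l hl
        rw [Finset.mem_coe] at hl
        rw [Finset.mem_coe]
        exact mem_filter.mpr ⟨hT l hl, rfl⟩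
      · intro a _ b _ hab
        exact (Prod.ext_iff.mp hab).2
    have h7 : ((F D).filter (fun p => p.1 ≠ v)).card = ((F D).filter (fun p => ¬ p.1 = v)).card := rfl
    omega
  · intro l S hS
    have h6 : S.card ≤ ((F D).filter (fun p => p.2 = l)).card := by
      apply Finset.card_le_card_of_injOn (fun v => (v, l))
      · intro v hv
        rw [Finset.mem_coe] at hv
        rw [Finset.mem_coe]
        exact mem_filter.mpr ⟨hS v hv, rfl⟩
      · intro a _ b _ hab
        exact (Prod.ext_iff.mp hab).1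
    rcases dichotomy hD hk hc with h | h
    · have h1 : (univ : Finset (Pt q)) ⊆ Z D := fun v _ => h v
      have h2 := Finset.card_le_card h1
      rw [card_univ, Fintype.card_prod, ZMod.card, ← sq] at h2
      have h3 : ((F D).filter (fun p => p.2 = l)).card ≤ (F D).card := Finset.card_filter_le _ _
      omega
    · have h1 : (univ : Finset (Pt q)).erase l ⊆
          ((F D).filter (fun p => p.2 ≠ l)).image Prod.snd := by
        intro m hm
        rw [mem_erase] at hm
        obtain ⟨v, hv⟩ := h m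
        exact mem_image.mpr ⟨(v, m), mem_filter.mpr ⟨hv, hm.1⟩, rfl⟩
      have h2 := (Finset.card_le_card h1).trans Finset.card_image_le
      have h3 := Finset.pred_card_le_card_erase (s := (univ : Finset (Pt q))) (a := l)
      rw [card_univ, Fintype.card_prod, ZMod.card, ← sq] at h3
      have h5 := Finset.card_filter_add_card_filter_not (s := F D) (fun p => p.2 = l)
      have h7 : ((F D).filter (fun p => p.2 ≠ l)).card =
        ((F D).filter (fun p => ¬ p.2 = l)).card := rfl
      omega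

/-- a system of flags outside `D` containing every point and every line exactly once -/
theorem matching {k : ℕ} (hk : 8 * (k + 1) ≤ q) (hc : (Z D).card + (F D).card ≤ q ^ 2 + k) :
    ∃ μ : Pt q → Pt q, Function.Bijective μ ∧ ∀ v, inc v (μ v) ∧ (v, μ v) ∉ F D := by
  classical
  obtain ⟨hdp, hdl⟩ := deg_le hD hk hc
  have key : ∀ S : Finset (Pt q), S.card ≤
      (S.biUnion (fun v => (univ : Finset (Pt q)).filter
        (fun l => inc v l ∧ (v, l) ∉ F D))).card := by
    intro S
    by_contra hlt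
    push Not at hlt
    set N := S.biUnion (fun v => (univ : Finset (Pt q)).filter
        (fun l => inc v l ∧ (v, l) ∉ F D)) with hN
    have hT : (univ \ N).card + N.card = q ^ 2 := by
      rw [Finset.card_sdiff_add_card_eq_card (subset_univ _), card_univ, Fintype.card_prod,
        ZMod.card, ← sq]
    have hin : ∀ v ∈ S, ∀ l ∈ univ \ N, inc v l → (v, l) ∈ F D := by
      intro v hv l hl h
      by_contra hF
      rw [mem_sdiff] at hl
      exact hl.2 (mem_biUnion.mpr ⟨v, hv, mem_filter.mpr ⟨mem_univ _, h, hF⟩⟩)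
    rcases le_total ((univ \ N).card) S.card with h | h
    · refine core hk (S := S) (T := univ \ N) (by omega) (by omega) ?_
      intro l hl
      unfold deg
      refine hdl l _ ?_
      intro v hv
      rw [Finset.mem_filter] at hv
      exact hin v hv.1 l hl hv.2
    · refine core hk (S := univ \ N) (T := S) (by omega) (by omega) ?_
      intro v hv
      unfold deg
      refine hdp v _ ?_
      intro l hl
      rw [Finset.mem_filter] at hl
      exact hin v hv l hl.1 ((inc_comm _ _).mp hl.2)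
  obtain ⟨μ, hinj, hμ⟩ := (Finset.all_card_le_biUnion_card_iff_exists_injective _).mp key
  refine ⟨μ, Finite.injective_iff_bijective.mp hinj, fun v => ?_⟩
  have := hμ v
  rw [Finset.mem_filter] at this
  exact this.2

end dom

theorem not_accurate {k : ℕ} (hk : 8 * (k + 1) ≤ q) {D : Finset (VV q)}
    (hD : IsAccurate (corona (G q) (P q)) D) : q ^ 2 + k < D.card := by
  classical
  by_contra hlt
  push Not at hlt
  obtain ⟨hdom, hacc⟩ := hD
  have hc : (Z D).card + (F D).card ≤ q ^ 2 + k := (card_Z_add_card_F D).trans hlt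
  have hge : q ^ 2 ≤ D.card := (card_ge hdom).trans (card_Z_add_card_F D)
  obtain ⟨μ, hbij, hμ⟩ := matching hdom hk hc
  have : Fintype (VV q) := Fintype.ofFinite _
  apply hacc
  -- the new dominating set
  let g : Pt q → VV q := fun v => fl v (μ v) (hμ v).1
  have hg : Function.Injective g := fun a b hab => (fl_inj hab).1
  have hgD : ∀ v, g v ∉ D := fun v hv => (hμ v).2 (mem_F.mpr ⟨_, hv⟩)
  have hsub : univ.image g ⊆ univ \ D := by
    intro a ha
    obtain ⟨v, -, rfl⟩ := mem_image.mp ha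
    exact mem_sdiff.mpr ⟨mem_univ _, hgD v⟩
  have hcard : (univ.image g).card = q ^ 2 := by
    rw [Finset.card_image_of_injective _ hg, card_univ, Fintype.card_prod, ZMod.card, ← sq]
  have hbig : q ^ 3 ≤ Fintype.card (VV q) := by
    have : Fintype.card (ZMod q × Pt q) ≤ Fintype.card (VV q) := by
      apply Fintype.card_le_of_injective
        (fun p : ZMod q × Pt q => fl p.2 (p.1, p.1 * p.2.1 - p.2.2) (by
          unfold inc
          show p.2.2 + (p.1 * p.2.1 - p.2.2) = p.1 * p.2.1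
          ring))
      rintro ⟨a, u⟩ ⟨b, v⟩ hab
      obtain ⟨h1, h2⟩ := fl_inj hab
      have h3 : a = b := (Prod.ext_iff.mp h2).1
      have h4 : u = v := h1
      rw [h3, h4]
    rw [Fintype.card_prod, Fintype.card_prod, ZMod.card] at this
    calc q ^ 3 = q * (q * q) := by ring
      _ ≤ _ := this
  have hcD : (univ \ D).card + D.card = Fintype.card (VV q) := by
    rw [Finset.card_sdiff_add_card_eq_card (subset_univ _), card_univ]
  have h3 : 2 * q ^ 2 + 2 * k ≤ q ^ 3 := by
    have h8 : 8 ≤ q := by omega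
    have h9 : k ≤ q := by omega
    have h10 : q ≤ q ^ 2 := by nlinarith
    have h11 : 8 * q ^ 2 ≤ q ^ 3 := by
      calc 8 * q ^ 2 ≤ q * q ^ 2 := Nat.mul_le_mul_right _ h8
        _ = q ^ 3 := by ring
    omega
  obtain ⟨D', h1, h2, h4⟩ := Finset.exists_subsuperset_card_eq hsub
    (n := D.card) (by omega) (by omega)
  refine ⟨D', fun v hv => (mem_sdiff.mp (h2 hv)).2, h4, ?_⟩
  intro a ha
  rcases a with v | x
  · exact ⟨g v, h1 (mem_image.mpr ⟨v, mem_univ _, rfl⟩), adj_inl_fl.mpr rfl⟩
  · obtain ⟨v, l, h, he⟩ := inr_eq x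
    rw [he] at ha ⊢
    obtain ⟨u, hu⟩ := hbij.2 l
    subst hu
    refine ⟨g u, h1 (mem_image.mpr ⟨u, mem_univ _, rfl⟩), ?_⟩
    refine adj_fl.mpr ⟨?_, rfl⟩
    rintro rfl
    exact ha (h1 (mem_image.mpr ⟨u, mem_univ _, rfl⟩))

end plane

/-- For every `k` there are a finite graph `G` and a family `P` of partitions of the neighbourhoods
of its vertices such that the accurate domination number of the `P`-corona of `G` is greater than
`|V_G| + k`. -/
theorem result : ∀ k : ℕ, ∃ (V : Type) (_ : Fintype V) (G : SimpleGraph V)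
    (P : V → Set (Set V)), IsPartitionFamily G P ∧
      Fintype.card V + k < accNumber (corona G P) := by
  intro k
  obtain ⟨q, hq, hp⟩ := Nat.exists_infinite_primes (8 * (k + 1))
  have : Fact q.Prime := ⟨hp⟩
  refine ⟨Pt q, inferInstance, G q, P q, isPartitionFamily, ?_⟩
  rw [Fintype.card_prod, ZMod.card, ← sq]
  classical
  have : Fintype (VV q) := Fintype.ofFinite _
  have hne : {s | ∃ D : Finset (VV q), IsAccurate (corona (G q) (P q)) D ∧ D.card = s}.Nonempty := by
    refine ⟨_, univ, ⟨fun v hv => absurd (mem_univ v) hv, ?_⟩, rfl⟩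
    rintro ⟨D', h1, h2, -⟩
    have h3 : D' = ∅ := by
      rw [Finset.eq_empty_iff_forall_notMem]
      exact fun v hv => h1 v hv (mem_univ v)
    rw [h3, card_empty] at h2
    have h4 : (univ : Finset (VV q)).Nonempty := ⟨Sum.inl (0, 0), mem_univ _⟩
    rw [← Finset.card_pos] at h4
    omega
  obtain ⟨D, hD, hc⟩ := Nat.sInf_mem hne
  have := not_accurate hq hD
  rw [hc] at this
  exact this

end Pool.Agent.Results.MP_a24849_co.UnboundedExcess
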